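import Pool.Agent.Q51.EB.Stm
import Pool.Agent.W310.BMX.Rep
import Pool.Agent.W215.HB.Bilo
import Pool.Agent.W864.HB.Bilt

/-!
# Project EB, job BIL (helper247): bilinearity of the Hilbert symbols over `ℝ` and `ℚ_p`
-/

set_option autoImplicit false

namespace Pool.Agent.Q247.EB

open Pool.Agent.Q51.EB Pool.Agent.W313.BMX

lemma hs_mul_iff {F : Type} [Field F] {a b c : F}
    (h : Splits a (b * c) ↔ (Splits a b ↔ Splits a c)) : hs a (b * c) = hs a b * hs a c := by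
  unfold hs
  by_cases h1 : Splits a b
  · by_cases h2 : Splits a c
    · rw [if_pos h1, if_pos h2, if_pos (h.2 (iff_of_true h1 h2)), one_mul]
    · rw [if_pos h1, if_neg h2, if_neg (fun h3 => h2 ((h.1 h3).1 h1)), one_mul]
  · by_cases h2 : Splits a c
    · rw [if_neg h1, if_pos h2, if_neg (fun h3 => h1 ((h.1 h3).2 h2)), mul_one]
    · rw [if_neg h1, if_neg h2, if_pos (h.2 (iff_of_false h1 h2))]
      decide

lemma splits_real' {a b : ℝ} (ha : a ≠ 0) (hb : b ≠ 0) : Splits a b ↔ (0 < a ∨ 0 < b) := by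
  constructor
  · rintro ⟨x, y, z, h0, h1⟩
    by_contra hn
    push Not at hn
    have ha' : a < 0 := lt_of_le_of_ne hn.1 ha
    have hb' : b < 0 := lt_of_le_of_ne hn.2 hb
    have e1 : a * x ^ 2 ≤ 0 := mul_nonpos_of_nonpos_of_nonneg hn.1 (sq_nonneg x)
    have e2 : b * y ^ 2 ≤ 0 := mul_nonpos_of_nonpos_of_nonneg hn.2 (sq_nonneg y)
    have e3 := sq_nonneg z
    have hx : a * x ^ 2 = 0 := by linarith
    have hy : b * y ^ 2 = 0 := by linarith
    have hz : z ^ 2 = 0 := by linarith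
    have hx' : x = 0 := by
      rcases mul_eq_zero.1 hx with h | h
      · exact absurd h ha
      · exact pow_eq_zero_iff (two_ne_zero) |>.1 h
    have hy' : y = 0 := by
      rcases mul_eq_zero.1 hy with h | h
      · exact absurd h hb
      · exact pow_eq_zero_iff (two_ne_zero) |>.1 h
    have hz' : z = 0 := pow_eq_zero_iff (two_ne_zero) |>.1 hz
    rcases h0 with h | h | h
    · exact h hx'
    · exact h hy'
    · exact h hz'
  · rintro (h | h)
    · exact ⟨1, 0, √a, Or.inl one_ne_zero, by rw [Real.sq_sqrt h.le]; ring⟩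
    · exact ⟨0, 1, √b, Or.inr (Or.inl one_ne_zero), by rw [Real.sq_sqrt h.le]; ring⟩

lemma hil_real : Hil ℝ := by
  refine ⟨two_ne_zero, fun a b c ha hb hc => hs_mul_iff ?_⟩
  rw [splits_real' ha (mul_ne_zero hb hc), splits_real' ha hb, splits_real' ha hc]
  rcases lt_or_gt_of_ne ha with h1 | h1
  · have ha' : ¬ 0 < a := not_lt.2 h1.le
    simp only [ha', false_or]
    rw [mul_pos_iff]
    rcases lt_or_gt_of_ne hb with h2 | h2
    · rcases lt_or_gt_of_ne hc with h3 | h3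
      · simp [h2, h3, not_lt.2 h2.le, not_lt.2 h3.le]
      · simp [h2, h3, not_lt.2 h2.le, not_lt.2 h3.le]
    · rcases lt_or_gt_of_ne hc with h3 | h3
      · simp [h2, h3, not_lt.2 h2.le, not_lt.2 h3.le]
      · simp [h2, h3, not_lt.2 h2.le, not_lt.2 h3.le]
  · simp [h1]

lemma rep_int (p : ℕ) [Fact p.Prime] (a : ℚ_[p]) (ha : a ≠ 0) :
    ∃ (A : ℤ) (c : ℚ_[p]), A ≠ 0 ∧ c ≠ 0 ∧ a = (A : ℚ_[p]) * c ^ 2 := by
  obtain ⟨t, m, c, _, _, hc, h⟩ := Pool.Agent.W310.BMX.odd4 p a ha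
  refine ⟨(p : ℤ) ^ t * m, c, ?_, hc, h⟩
  intro h0
  apply ha
  rw [h, h0]
  simp

lemma splits_both {F : Type} [Field F] {a b c d : F} (hc : c ≠ 0) (hd : d ≠ 0) :
    Splits (a * c ^ 2) (b * d ^ 2) ↔ Splits a b := by
  rw [splits_mul_sq hc, splits_comm, splits_mul_sq hd, splits_comm]

lemma hil_padic (p : ℕ) [Fact p.Prime] : Hil ℚ_[p] := by
  refine ⟨by norm_num, fun a b c ha hb hc => hs_mul_iff ?_⟩
  obtain ⟨A, α, hA, hα, rfl⟩ := rep_int p a ha
  obtain ⟨B, β, hB, hβ, rfl⟩ := rep_int p b hb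
  obtain ⟨C, γ, hC, hγ, rfl⟩ := rep_int p c hc
  have e : (B : ℚ_[p]) * β ^ 2 * ((C : ℚ_[p]) * γ ^ 2) = ((B * C : ℤ) : ℚ_[p]) * (β * γ) ^ 2 := by
    push_cast; ring
  rw [e, splits_both hα (mul_ne_zero hβ hγ), splits_both hα hβ, splits_both hα hγ]
  by_cases hp : p = 2
  · subst hp
    exact Pool.Agent.W864.HBm.bilt_ A B C hA hB hC
  · exact Pool.Agent.W215.HB.bilo_ p hp A B C hA hB hC

theorem bil : S_BIL := ⟨hil_real, fun p _ => hil_padic p⟩

end Pool.Agent.Q247.EB
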