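import Pool.Agent.Q51.EB.Stm
import Pool.Agent.Q247.EB.BIL
import Pool.Agent.Q247.EB.BC
import Pool.Agent.W351.HB.PF

/-!
# Project EB, job PFC (helper247): the product formula for `Cor (β, ε)`
-/

set_option autoImplicit false

namespace Pool.Agent.Q247.EB

open Pool.Agent.Q51.EB Pool.Agent.W313.BMX Polynomial Finset

/-- finitely many places with value `-1`, and their number is even -/
def EvS (s : Option Nat.Primes → ℤˣ) : Prop := {v | s v = -1}.Finite ∧ Even {v | s v = -1}.ncard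

lemma evs_mul {s t : Option Nat.Primes → ℤˣ} (hs : EvS s) (ht : EvS t) : EvS (fun v => s v * t v) := by
  have h : {v | s v * t v = -1} = symmDiff {v | s v = -1} {v | t v = -1} := by
    ext v
    rw [Set.mem_symmDiff]
    simp only [Set.mem_setOf_eq]
    rcases Int.units_eq_one_or (s v) with h1 | h1 <;> rcases Int.units_eq_one_or (t v) with h2 | h2 <;>
      rw [h1, h2] <;> decide
  unfold EvS
  rw [h]
  exact Pool.Agent.W351.HB.PF.symm_even _ _ hs.1 ht.1 hs.2 ht.2

lemma evs_one : EvS (fun _ => 1) := by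
  have h : {v : Option Nat.Primes | (1 : ℤˣ) = -1} = ∅ := by
    ext v
    simp only [Set.mem_setOf_eq, Set.mem_empty_iff_false, iff_false]
    decide
  unfold EvS
  rw [h]
  simp

lemma evs_prod {ι : Type*} (S : Finset ι) (s : ι → Option Nat.Primes → ℤˣ) (h : ∀ i ∈ S, EvS (s i)) :
    EvS (fun v => ∏ i ∈ S, s i v) := by
  classical
  induction S using Finset.induction_on with
  | empty => simpa using evs_one
  | insert a S ha ih =>
    have : (fun v => ∏ i ∈ insert a S, s i v) = fun v => s a v * ∏ i ∈ S, s i v := by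
      funext v; rw [Finset.prod_insert ha]
    rw [this]
    exact evs_mul (h a (Finset.mem_insert_self _ _)) (ih fun i hi => h i (Finset.mem_insert_of_mem hi))

/-- the values of a family at the places -/
noncomputable def plc (g : ∀ (F : Type) [Field F] [CharZero F], ℤˣ) (v : Option Nat.Primes) : ℤˣ :=
  match v with
  | none => g ℝ
  | some p => g ℚ_[(p : ℕ)]

lemma hs_eq_neg {F : Type} [Field F] (a b : F) : hs a b = -1 ↔ ¬ Splits a b := by
  unfold hs
  split_ifs with h
  · simp [h]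
  · simp [h]

lemma hs_both {F : Type} [Field F] {a b c d : F} (hc : c ≠ 0) (hd : d ≠ 0) :
    hs (a * c ^ 2) (b * d ^ 2) = hs a b := by
  unfold hs
  rw [splits_both hc hd]

lemma evs_hs (a b : ℚ) (ha : a ≠ 0) (hb : b ≠ 0) :
    EvS (plc fun F _ _ => hs (a : F) (b : F)) := by
  set A : ℤ := a.num * a.den with hA
  set B : ℤ := b.num * b.den with hB
  have hA0 : A ≠ 0 := mul_ne_zero (Rat.num_ne_zero.2 ha) (by exact_mod_cast a.den_ne_zero)
  have hB0 : B ≠ 0 := mul_ne_zero (Rat.num_ne_zero.2 hb) (by exact_mod_cast b.den_ne_zero)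
  have key : ∀ (F : Type) [Field F] [CharZero F], hs (a : F) (b : F) = hs (A : F) (B : F) := by
    intro F _ _
    have h1 : ∀ q : ℚ, (q : F) = ((q.num * q.den : ℤ) : F) * ((q.den : F)⁻¹) ^ 2 := by
      intro q
      have hd : (q.den : F) ≠ 0 := by exact_mod_cast q.den_ne_zero
      rw [Rat.cast_def]
      push_cast
      field_simp
    rw [h1 a, h1 b]
    exact hs_both (inv_ne_zero (by exact_mod_cast a.den_ne_zero)) (inv_ne_zero (by exact_mod_cast b.den_ne_zero))
  have hev := Pool.Agent.W351.HB.PF.ev_all Pool.Agent.W215.HB.bilo_ Pool.Agent.W864.HBm.bilt_ A B hA0 hB0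
  have hset : {v | plc (fun F _ _ => hs (a : F) (b : F)) v = -1} = ram (diag A) B := by
    ext v
    cases v with
    | none =>
      rw [Pool.Agent.W351.HB.PF.mem_none, ← hs_eq_neg, ← key]
      rfl
    | some p =>
      rw [Pool.Agent.W351.HB.PF.mem_some, ← hs_eq_neg, ← key]
      rfl
  unfold EvS
  rw [hset]
  exact hev

/-- place fields -/
structure PF (F : Type) [Field F] : Prop where
  hil : Hil F

lemma hw_map (h1 : S_HWP) (F : Type) [Field F] [CharZero F] (hF : Hil F) {n : ℕ} (M P : Matrix (Fin n) (Fin n) ℚ) (a : Fin n → ℚ)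
    (hM : M.IsSymm) (hdM : M.det ≠ 0) (hP : P.det ≠ 0) (ha : ∀ i, a i ≠ 0) (hD : P.transpose * M * P = Matrix.diagonal a) :
    hw (M.map (Rat.castHom F)) = ∏ i, ∏ j ∈ Ioi i, hs ((a i : ℚ) : F) ((a j : ℚ) : F) := by
  have hinj : Function.Injective (Rat.castHom F) := (Rat.castHom F).injective
  have hdet : ∀ N : Matrix (Fin n) (Fin n) ℚ, N.det ≠ 0 → (N.map (Rat.castHom F)).det ≠ 0 := by
    intro N hN
    have : (N.map (Rat.castHom F)).det = Rat.castHom F N.det := by
      rw [RingHom.map_det]; rfl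
    rw [this]
    exact (_root_.map_ne_zero _).2 hN
  have hsym : (M.map (Rat.castHom F)).IsSymm := by
    unfold Matrix.IsSymm
    rw [← Matrix.transpose_map, hM]
  refine (h1 F hF n (M.map (Rat.castHom F)) hsym (hdet M hdM)).1 _ ?_
  refine ⟨P.map (Rat.castHom F), fun i => ((a i : ℚ) : F), hdet P hP, ?_, ?_, rfl⟩
  · intro i
    show ((a i : ℚ) : F) ≠ 0
    exact_mod_cast ha i
  · have := congrArg (fun N : Matrix (Fin n) (Fin n) ℚ => N.map (Rat.castHom F)) hD
    simp only [Matrix.map_mul, Matrix.transpose_map] at this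
    rw [this]
    rw [Matrix.diagonal_map (map_zero _)]
    rfl

lemma evs_hw (h1 : S_HWP) (h2 : S_DIAG) {n : ℕ} (M : Matrix (Fin n) (Fin n) ℚ) (hM : M.IsSymm) (hdM : M.det ≠ 0) :
    EvS (plc fun F _ _ => hw (M.map (Rat.castHom F))) := by
  obtain ⟨P, a, hP, ha, hD⟩ := h2 ℚ two_ne_zero n M hM hdM
  have key : plc (fun F _ _ => hw (M.map (Rat.castHom F))) =
      fun v => ∏ i, ∏ j ∈ Ioi i, plc (fun F _ _ => hs ((a i : ℚ) : F) ((a j : ℚ) : F)) v := by
    funext v
    cases v with
    | none => exact hw_map h1 ℝ bil.1 M P a hM hdM hP ha hD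
    | some p => exact hw_map h1 ℚ_[(p : ℕ)] (bil.2 (p : ℕ)) M P a hM hdM hP ha hD
  rw [key]
  exact evs_prod _ _ fun i _ => evs_prod _ _ fun j _ => evs_hs _ _ (ha i) (ha j)

lemma hw_cast {F : Type} [Field F] {n m : ℕ} (h : n = m) (M : Matrix (Fin n) (Fin n) F) (N : Matrix (Fin m) (Fin m) F)
    (hMN : ∀ i j : Fin n, M i j = N (Fin.cast h i) (Fin.cast h j)) : hw M = hw N := by
  subst h
  congr 1
  ext i j
  exact hMN i j

lemma hw_gram (f : ℤ[X]) (hf : Irreducible (f.map (Int.castRingHom ℚ))) (F : Type) [Field F] [CharZero F] (u : ℚ[X]) :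
    hw (gram (up f F) (u.map (Rat.castHom F))) = hw ((gram (up f ℚ) u).map (Rat.castHom F)) := by
  have hd : (up f F).natDegree = (up f ℚ).natDegree := by
    rw [(bc f hf F 1).2.2.2.2, (bc f hf ℚ 1).2.2.2.2]
  refine hw_cast hd _ _ fun i j => ?_
  unfold gram
  have h := (bc f hf F (u * X ^ ((i : ℕ) + j))).2.1
  rw [Polynomial.map_mul, Polynomial.map_pow, map_X] at h
  rw [h]
  rfl

theorem pfc (h1 : S_BIL) (h2 : S_HWP) (h3 : S_DIAG) (h4 : S_GRAM) (h5 : S_BC) : S_PFC := by
  intro f hf β ε hβ hε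
  have hsep : (up f ℚ).Separable := Irreducible.separable hf
  by_cases hdeg : 1 ≤ (up f ℚ).natDegree
  · obtain ⟨hsym, hdet1, hdet, _, _, _, hcop⟩ := h4 ℚ (up f ℚ) hsep hdeg
    have hnz : ∀ u : ℚ[X], IsCoprime (up f ℚ) u → (gram (up f ℚ) u).det ≠ 0 := by
      intro u hu
      rw [hdet u]
      exact mul_ne_zero ((hcop u).1 hu) hdet1
    have e1 := evs_hw h2 h3 (gram (up f ℚ) (β * ε)) (hsym _) (hnz _ (hβ.mul_right hε))
    have e2 := evs_hw h2 h3 (gram (up f ℚ) β) (hsym _) (hnz _ hβ)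
    have e3 := evs_hw h2 h3 (gram (up f ℚ) ε) (hsym _) (hnz _ hε)
    have e4 := evs_hw h2 h3 (gram (up f ℚ) 1) (hsym _) hdet1
    have e5 := evs_hs _ _ ((hcop β).1 hβ) ((hcop ε).1 hε)
    have e6 := evs_mul (evs_mul (evs_mul (evs_mul e1 e2) e3) e4) e5
    have key : ∀ (F : Type) [Field F] [CharZero F],
        cor (up f F) (β.map (Rat.castHom F)) (ε.map (Rat.castHom F)) =
        hw ((gram (up f ℚ) (β * ε)).map (Rat.castHom F)) * hw ((gram (up f ℚ) β).map (Rat.castHom F)) *
          hw ((gram (up f ℚ) ε).map (Rat.castHom F)) * hw ((gram (up f ℚ) 1).map (Rat.castHom F)) *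
          hs ((Algebra.norm ℚ (AdjoinRoot.mk (up f ℚ) β) : ℚ) : F) ((Algebra.norm ℚ (AdjoinRoot.mk (up f ℚ) ε) : ℚ) : F) := by
      intro F _ _
      unfold cor
      rw [← Polynomial.map_mul, hw_gram f hf F, hw_gram f hf F, hw_gram f hf F, (h5 f hf F β).1, (h5 f hf F ε).1]
      have h6 : hw (gram (up f F) 1) = hw ((gram (up f ℚ) 1).map (Rat.castHom F)) := by
        have := hw_gram f hf F 1
        rw [Polynomial.map_one] at this
        exact this
      rw [h6]
    have hset : ramG f β ε = {v | (plc (fun F _ _ => hw ((gram (up f ℚ) (β * ε)).map (Rat.castHom F))) v *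
        plc (fun F _ _ => hw ((gram (up f ℚ) β).map (Rat.castHom F))) v *
          plc (fun F _ _ => hw ((gram (up f ℚ) ε).map (Rat.castHom F))) v * plc (fun F _ _ => hw ((gram (up f ℚ) 1).map (Rat.castHom F))) v *
          plc (fun F _ _ => hs ((Algebra.norm ℚ (AdjoinRoot.mk (up f ℚ) β) : ℚ) : F) ((Algebra.norm ℚ (AdjoinRoot.mk (up f ℚ) ε) : ℚ) : F)) v) = -1} := by
      ext v
      cases v with
      | none =>
        unfold ramG
        simp only [Set.mem_setOf_eq]
        rw [key ℝ]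
        rfl
      | some p =>
        unfold ramG
        simp only [Set.mem_setOf_eq]
        rw [key ℚ_[(p : ℕ)]]
        rfl
    rw [hset]
    exact e6
  · exfalso
    exact hdeg (Irreducible.natDegree_pos hf)

end Pool.Agent.Q247.EB
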