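import Pool.Agent.Q51.EB.Stm
import Pool.Agent.Q239.EL.NV

/-!
# Project EB, job NRM (helper247): normalisation of the valuations above `l` by a square
-/

set_option autoImplicit false

namespace Pool.Agent.Q247.EB

open Pool.Agent.Q51.EB Pool.Agent.Q51.EL Pool.Agent.Q239.EL NumberField IsDedekindDomain

variable {L : Type} [Field L] [NumberField L]

lemma pow_dvd_iff_mu (v : HeightOneSpectrum (𝓞 L)) {A : Ideal (𝓞 L)} (hA : A ≠ 0) (k : ℕ) :
    v.asIdeal ^ k ∣ A ↔ k ≤ mu v A :=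
  (FiniteMultiplicity.of_prime_left v.prime hA).pow_dvd_iff_le_multiplicity

open Classical in
lemma mu_prod_pow (v : HeightOneSpectrum (𝓞 L)) (S : Finset (HeightOneSpectrum (𝓞 L))) (n : HeightOneSpectrum (𝓞 L) → ℕ) :
    mu v (∏ w ∈ S, w.asIdeal ^ n w) = if v ∈ S then n v else 0 := by
  induction S using Finset.induction_on with
  | empty => rw [Finset.prod_empty, mu_one, if_neg (Finset.notMem_empty v)]
  | insert a s ha ih =>
    have h0 : ∏ w ∈ s, w.asIdeal ^ n w ≠ 0 := Finset.prod_ne_zero_iff.mpr fun w _ => pow_ne_zero _ w.ne_bot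
    rw [Finset.prod_insert ha, mu_mul v (pow_ne_zero _ a.ne_bot) h0, ih, mu_pow v a.ne_bot]
    by_cases hv : v = a
    · subst hv
      rw [mu_self, if_neg ha, if_pos (Finset.mem_insert_self _ _)]; ring
    · rw [mu_ne hv]
      by_cases hs : v ∈ s
      · rw [if_pos hs, if_pos (Finset.mem_insert_of_mem hs)]; ring
      · rw [if_neg hs, if_neg (by rw [Finset.mem_insert]; tauto)]; ring

/-- an integer with given valuations at finitely many places -/
lemma exists_mu (S : Finset (HeightOneSpectrum (𝓞 L))) (n : HeightOneSpectrum (𝓞 L) → ℕ) :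
    ∃ c : 𝓞 L, c ≠ 0 ∧ ∀ v ∈ S, mu v (Ideal.span {c}) = n v := by
  classical
  rcases S.eq_empty_or_nonempty with hS | hS
  · subst hS
    exact ⟨1, one_ne_zero, fun v hv => absurd hv (Finset.notMem_empty v)⟩
  set J := ∏ w ∈ S, w.asIdeal ^ n w with hJ
  have hJ0 : J ≠ 0 := Finset.prod_ne_zero_iff.mpr fun w _ => pow_ne_zero _ w.ne_bot
  set P := ∏ w ∈ S, w.asIdeal with hP
  have hP0 : P ≠ 0 := Finset.prod_ne_zero_iff.mpr fun w _ => w.ne_bot
  obtain ⟨a, ha⟩ := IsDedekindDomain.exists_sup_span_eq (I := J * P) (J := J) Ideal.mul_le_left (mul_ne_zero hJ0 hP0)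
  have key : ∀ v ∈ S, ¬ v.asIdeal ^ (n v + 1) ∣ Ideal.span {a} := by
    intro v hv hd
    have h1 : v.asIdeal ^ (n v + 1) ∣ J * P := by
      rw [pow_dvd_iff_mu v (mul_ne_zero hJ0 hP0), mu_mul v hJ0 hP0, hJ, hP, mu_prod_pow, mu_prod, if_pos hv, if_pos hv]
    have h2 : J ≤ v.asIdeal ^ (n v + 1) := by
      rw [← ha]
      exact sup_le (Ideal.dvd_iff_le.1 h1) (Ideal.dvd_iff_le.1 hd)
    have h3 := (pow_dvd_iff_mu v hJ0 (n v + 1)).1 (Ideal.dvd_iff_le.2 h2)
    rw [hJ, mu_prod_pow, if_pos hv] at h3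
    omega
  have ha0 : a ≠ 0 := by
    rintro rfl
    obtain ⟨v, hv⟩ := hS
    apply key v hv
    rw [Ideal.span_singleton_eq_bot.2 rfl]
    exact dvd_zero _
  refine ⟨a, ha0, fun v hv => ?_⟩
  have h4 : Ideal.span {a} ≤ J := by rw [← ha]; exact le_sup_right
  have h5 : v.asIdeal ^ n v ∣ Ideal.span {a} := by
    refine dvd_trans ?_ (Ideal.dvd_iff_le.2 h4)
    exact Finset.dvd_prod_of_mem (fun w : HeightOneSpectrum (𝓞 L) => w.asIdeal ^ n w) hv
  have h6 := (pow_dvd_iff_mu v (span_ne ha0) _).1 h5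
  have h7 := mt (pow_dvd_iff_mu v (span_ne ha0) _).2 (key v hv)
  omega

theorem nrm : S_NRM := by
  classical
  intro L _ _ l hl x hx e hpar
  obtain ⟨a, y, hy, hxy⟩ := exists_ratio x
  have hyL := coe_ne hy
  have ha : a ≠ 0 := by
    rintro rfl
    exact (mul_ne_zero hx hyL) (hxy.trans (RingOfIntegers.coe_eq_zero_iff.mpr rfl))
  set z : 𝓞 L := a * y with hz
  have hz0 : z ≠ 0 := mul_ne_zero ha hy
  have hzx : (z : L) = x * (y : L) ^ 2 := by
    have h1 : ((a * y : 𝓞 L) : L) = (a : L) * (y : L) := map_mul (algebraMap (𝓞 L) L) a y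
    rw [hz, h1, ← hxy]; ring
  have hlO : (l : 𝓞 L) ≠ 0 := by exact_mod_cast hl.ne_zero
  have hlL : (l : L) ≠ 0 := by exact_mod_cast hl.ne_zero
  have hev : ∀ v, Abv v l → ∃ m : ℤ, (mu v (Ideal.span {z}) : ℤ) = e v + 2 * m := by
    intro v hv
    have h1 : Par v (z : L) (e v) := by rw [hzx]; exact par_mul_sq hyL (hpar v hv)
    obtain ⟨m, hm⟩ := par_int hz0 h1
    exact ⟨m - e v, by linarith⟩
  choose! m hm using hev
  have hfin := ab_finite (L := L) hl.ne_zero
  set S := hfin.toFinset with hS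
  have hSmem : ∀ v, v ∈ S ↔ Abv v l := fun v => by rw [hS, Set.Finite.mem_toFinset]; rfl
  set N : ℕ := ∑ v ∈ S, mu v (Ideal.span {z}) with hN
  have hmul : ∀ v, Abv v l → 1 ≤ mu v (Ideal.span {(l : 𝓞 L)}) := by
    intro v hv
    have : v.asIdeal ∣ Ideal.span {(l : 𝓞 L)} := by
      rw [Ideal.dvd_iff_le, Ideal.span_singleton_le_iff_mem]; exact hv
    have h1 := (mu_pos_iff (span_ne hlO)).1 this
    omega
  have hnn : ∀ v, Abv v l → 0 ≤ (N : ℤ) * mu v (Ideal.span {(l : 𝓞 L)}) - m v := by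
    intro v hv
    have h1 : mu v (Ideal.span {z}) ≤ N := Finset.single_le_sum (f := fun v => mu v (Ideal.span {z})) (fun _ _ => Nat.zero_le _) ((hSmem v).2 hv)
    have h2 := hmul v hv
    have h3 := hm v hv
    have h4 : (N : ℤ) ≤ N * mu v (Ideal.span {(l : 𝓞 L)}) := by exact_mod_cast Nat.le_mul_of_pos_right N h2
    have h5 : (0 : ℤ) ≤ e v := Int.natCast_nonneg _
    have h6 : (0 : ℤ) ≤ mu v (Ideal.span {z}) := Int.natCast_nonneg _
    have h7 : (mu v (Ideal.span {z}) : ℤ) ≤ N := by exact_mod_cast h1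
    omega
  obtain ⟨c, hc0, hc⟩ := exists_mu S (fun v => ((N : ℤ) * mu v (Ideal.span {(l : 𝓞 L)}) - m v).toNat)
  have hcL := coe_ne hc0
  -- valuations of `z c² / l^(2N)`
  set w : L := (z : L) * (c : L) ^ 2 / (l : L) ^ (2 * N) with hw
  have hlv : ∀ v : HeightOneSpectrum (𝓞 L), v.valuation L (l : L) = WithZero.exp (-(mu v (Ideal.span {(l : 𝓞 L)}) : ℤ)) := by
    intro v
    have := val_int v hlO
    rw [← this]
    congr 1
  have hval : ∀ v : HeightOneSpectrum (𝓞 L), v.valuation L w = WithZero.exp (-(mu v (Ideal.span {z}) : ℤ) +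
      2 * (-(mu v (Ideal.span {c}) : ℤ)) - (2 * N : ℕ) * (-(mu v (Ideal.span {(l : 𝓞 L)}) : ℤ))) := by
    intro v
    rw [hw, map_div₀, map_mul, map_pow, map_pow, val_int v hz0, val_int v hc0, hlv v, ← WithZero.exp_nsmul,
      ← WithZero.exp_nsmul, ← WithZero.exp_add, ← WithZero.exp_sub]
    congr 1
  have hval1 : ∀ v : HeightOneSpectrum (𝓞 L), Abv v l → v.valuation L w = WithZero.exp (-(e v : ℤ)) := by
    intro v hv
    rw [hval v, hc v ((hSmem v).2 hv), Int.toNat_of_nonneg (hnn v hv), hm v hv]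
    congr 1
    try push_cast
    try ring
  have hval2 : ∀ v : HeightOneSpectrum (𝓞 L), v.valuation L w ≤ 1 := by
    intro v
    by_cases hv : Abv v l
    · rw [hval1 v hv, ← WithZero.exp_zero, WithZero.exp_le_exp]
      have : (0 : ℤ) ≤ e v := Int.natCast_nonneg _
      omega
    · have h0 : mu v (Ideal.span {(l : 𝓞 L)}) = 0 := by
        apply mu_eq_zero
        intro hd
        apply hv
        have := Ideal.dvd_iff_le.1 hd
        rw [Ideal.span_singleton_le_iff_mem] at this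
        exact this
      rw [hval v, h0, ← WithZero.exp_zero, WithZero.exp_le_exp]
      have h1 : (0 : ℤ) ≤ mu v (Ideal.span {z}) := Int.natCast_nonneg _
      have h2 : (0 : ℤ) ≤ mu v (Ideal.span {c}) := Int.natCast_nonneg _
      push_cast
      omega
  obtain ⟨α, hα⟩ := HeightOneSpectrum.mem_integers_of_valuation_le_one L w hval2
  refine ⟨(y : L) * (c : L) / (l : L) ^ N, α, div_ne_zero (mul_ne_zero hyL hcL) (pow_ne_zero _ hlL), ?_, ?_⟩
  · have h1 : (α : L) = w := hα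
    rw [h1, hw, hzx]
    field_simp
    ring
  · intro v hv
    have h1 : (α : L) = w := hα
    rw [h1]
    exact hval1 v hv

end Pool.Agent.Q247.EB
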